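import Pool.Agent.Work.MP_e056c9_an.Assemble
import Pool.Agent.Work.MP_e056c9_an.C9

/-!
# MP_e056c9_an: recurrence coefficients of real Cantor Julia sets are almost periodic

The Julia set is the complement, in the Riemann sphere `OnePoint ℂ`, of the set of normality of the
iterates; the equilibrium measure is the probability measure of least logarithmic energy. For a
polynomial `f` of degree `d ≥ 2` whose Julia set is real and totally disconnected, both sequences of
recurrence coefficients of the equilibrium measure are almost periodic, and they are uniform limits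
of sequences with periods `d ^ k`.
-/

set_option autoImplicit false
set_option linter.unusedSectionVars false

namespace Pool.Agent.Results.MP_e056c9_an.RealCantorJulia

open Polynomial MeasureTheory Filter Topology

/-- the polynomial `f` as a map of the Riemann sphere to itself, with `∞ ↦ ∞` -/
noncomputable def sph (f : ℂ[X]) : OnePoint ℂ → OnePoint ℂ := OnePoint.map fun z => f.eval z

/-- the iterates of `f` are a normal family on the set `U` of the sphere: every sequence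
`f^k(0), f^k(1), ..` of iterates has a subsequence which converges locally uniformly on `U`, that is
in `C(U, OnePoint ℂ)` with the compact-open topology -/
def NormalOn (f : ℂ[X]) (U : Set (OnePoint ℂ)) : Prop :=
  ∀ k : ℕ → ℕ, (∀ j, 1 ≤ k j) → ∃ φ : ℕ → ℕ, StrictMono φ ∧
    ∃ (g : ℕ → C(U, OnePoint ℂ)) (G : C(U, OnePoint ℂ)),
      (∀ (j : ℕ) (z : U), g j z = (sph f)^[k (φ j)] z) ∧ Tendsto g atTop (𝓝 G)

/-- the Fatou set -/
def fatouSet (f : ℂ[X]) : Set (OnePoint ℂ) := {z | ∃ U, IsOpen U ∧ z ∈ U ∧ NormalOn f U}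

/-- the Julia set -/
def juliaSet (f : ℂ[X]) : Set (OnePoint ℂ) := (fatouSet f)ᶜ

/-- the real line in the sphere -/
def realLine : Set (OnePoint ℂ) := Set.range fun x : ℝ => ((x : ℂ) : OnePoint ℂ)

/-- the real points of the Julia set, as a set of real numbers -/
def realJulia (f : ℂ[X]) : Set ℝ := {x : ℝ | ((x : ℂ) : OnePoint ℂ) ∈ juliaSet f}

/-- the logarithmic energy `∬ log (1 / |x - y|) dμ(x) dμ(y)`, the integral of the positive part
minus the integral of the negative part -/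
noncomputable def logEnergy (μ : Measure ℝ) : EReal :=
  ((∫⁻ x, ∫⁻ y, (if x = y then (⊤ : ENNReal) else ENNReal.ofReal (-Real.log |x - y|)) ∂μ ∂μ :
    ENNReal) : EReal) -
  ((∫⁻ x, ∫⁻ y, ENNReal.ofReal (Real.log |x - y|) ∂μ ∂μ : ENNReal) : EReal)

/-- `μ` is the equilibrium measure of `K`: the probability measure on `K` of least energy -/
def IsEquilibriumMeasure (K : Set ℝ) (μ : Measure ℝ) : Prop :=
  IsProbabilityMeasure μ ∧ μ Kᶜ = 0 ∧
    ∀ ν : Measure ℝ, IsProbabilityMeasure ν → ν Kᶜ = 0 → logEnergy μ ≤ logEnergy ν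

/-- `P 0, P 1, ..` are the monic orthogonal polynomials of `μ` -/
def IsMonicOP (μ : Measure ℝ) (P : ℕ → ℝ[X]) : Prop :=
  ∀ n, (P n).Monic ∧ (P n).natDegree = n ∧
    ∀ q : ℝ[X], q.degree < n → ∫ x, (P n).eval x * q.eval x ∂μ = 0

/-- `a 1, a 2, ..` and `b 1, b 2, ..` are the recurrence coefficients of `μ` -/
def IsRecurrenceCoeffs (μ : Measure ℝ) (a b : ℕ → ℝ) : Prop :=
  ∃ P : ℕ → ℝ[X], IsMonicOP μ P ∧ (∀ n, 1 ≤ n → 0 < a n) ∧ P 1 = X - C (b 1) ∧
    ∀ n, 1 ≤ n → P (n + 1) = (X - C (b (n + 1))) * P n - C (a n ^ 2) * P (n - 1)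

/-- the bounded two-sided sequence `D` is almost periodic: its translates have compact closure in
`ℓ^∞(ℤ)` -/
def IsAlmostPeriodic (D : lp (fun _ : ℤ => ℂ) ⊤) : Prop :=
  IsCompact (closure {E : lp (fun _ : ℤ => ℂ) ⊤ | ∃ k : ℤ, ∀ n : ℤ, E n = D (n + k)})

/-- the one-sided sequence `c 1, c 2, ..` is almost periodic -/
def AlmostPeriodic (c : ℕ → ℝ) : Prop :=
  ∃ D : lp (fun _ : ℤ => ℂ) ⊤, IsAlmostPeriodic D ∧ ∀ n : ℕ, 1 ≤ n → D (n : ℤ) = (c n : ℂ)

/-- the sequence `c 1, c 2, ..` is a uniform limit of sequences of periods `d ^ k` -/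
def IsLimitPeriodic (d : ℕ) (c : ℕ → ℝ) : Prop :=
  ∀ ε : ℝ, 0 < ε → ∃ k : ℕ, ∀ n n' : ℕ, 1 ≤ n → 1 ≤ n' → n ≡ n' [MOD d ^ k] → |c n - c n'| ≤ ε



theorem almostPeriodic_of {d : ℕ} (hd : 2 ≤ d) {c : ℕ → ℝ} (h : IsLimitPeriodic d c) :
    AlmostPeriodic c := by
  classical
  have hd0 : ∀ k : ℕ, (0 : ℤ) < (d : ℤ) ^ k := fun k => by positivity
  -- the approximations
  let u : ℤ → ℕ → ℝ := fun n k => c (n + (d : ℤ) ^ k).toNat
  have hlarge : ∀ n : ℤ, ∃ k0 : ℕ, ∀ k, k0 ≤ k → 1 ≤ n + (d : ℤ) ^ k := by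
    intro n
    refine ⟨n.natAbs + 1, fun k hk => ?_⟩
    have h1 : k < d ^ k := Nat.lt_pow_self (by omega)
    have h2 : (k : ℤ) < (d : ℤ) ^ k := by exact_mod_cast h1
    have h3 : (n.natAbs : ℤ) + 1 ≤ k := by exact_mod_cast hk
    have h4 : -(n.natAbs : ℤ) ≤ n := by omega
    omega
  have hcmp : ∀ ε : ℝ, 0 < ε → ∃ K : ℕ, ∀ n n' : ℤ, n ≡ n' [ZMOD (d : ℤ) ^ K] →
      ∀ k k' : ℕ, K ≤ k → K ≤ k' → 1 ≤ n + (d : ℤ) ^ k → 1 ≤ n' + (d : ℤ) ^ k' →
      |u n k - u n' k'| ≤ ε := by
    intro ε hε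
    obtain ⟨K, hK⟩ := h ε hε
    refine ⟨K, fun n n' hnn k k' hk hk' h1 h1' => ?_⟩
    refine hK _ _ (by omega) (by omega) ?_
    rw [← Int.natCast_modEq_iff, Int.toNat_of_nonneg (by omega), Int.toNat_of_nonneg (by omega)]
    push_cast
    have e1 : (d : ℤ) ^ k ≡ 0 [ZMOD (d : ℤ) ^ K] :=
      (Int.modEq_zero_iff_dvd).2 (pow_dvd_pow _ hk)
    have e2 : (d : ℤ) ^ k' ≡ 0 [ZMOD (d : ℤ) ^ K] :=
      (Int.modEq_zero_iff_dvd).2 (pow_dvd_pow _ hk')
    exact hnn.add (e1.trans e2.symm)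
  have hcau : ∀ n : ℤ, CauchySeq (u n) := by
    intro n
    rw [Metric.cauchySeq_iff']
    intro ε hε
    obtain ⟨K, hK⟩ := hcmp (ε / 2) (by positivity)
    obtain ⟨k0, hk0⟩ := hlarge n
    refine ⟨max K k0, fun m hm => ?_⟩
    have := hK n n (Int.ModEq.refl _) m (max K k0) ((le_max_left _ _).trans hm) (le_max_left _ _)
      (hk0 _ ((le_max_right _ _).trans hm)) (hk0 _ (le_max_right _ _))
    rw [Real.dist_eq]
    linarith
  choose v hv using fun n => cauchySeq_tendsto_of_complete (hcau n)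
  have hvv : ∀ ε : ℝ, 0 < ε → ∃ K : ℕ, ∀ n n' : ℤ, n ≡ n' [ZMOD (d : ℤ) ^ K] →
      |v n - v n'| ≤ ε := by
    intro ε hε
    obtain ⟨K, hK⟩ := hcmp ε hε
    refine ⟨K, fun n n' hnn => ?_⟩
    obtain ⟨k0, hk0⟩ := hlarge n
    obtain ⟨k1, hk1⟩ := hlarge n'
    refine le_of_tendsto (((hv n).sub (hv n')).abs) ?_
    filter_upwards [eventually_ge_atTop (max K (max k0 k1))] with k hk
    have h1 : K ≤ k := (le_max_left _ _).trans hk
    have h2 : k0 ≤ k := (le_max_left _ _).trans ((le_max_right _ _).trans hk)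
    have h3 : k1 ≤ k := (le_max_right _ _).trans ((le_max_right _ _).trans hk)
    exact hK n n' hnn k k h1 h1 (hk0 k h2) (hk1 k h3)
  have hvc : ∀ n : ℕ, 1 ≤ n → v n = c n := by
    intro n hn
    refine tendsto_nhds_unique (hv n) ?_
    rw [Metric.tendsto_atTop]
    intro ε hε
    obtain ⟨K, hK⟩ := h (ε / 2) (by positivity)
    refine ⟨K, fun k hk => ?_⟩
    have e : ((n : ℤ) + (d : ℤ) ^ k).toNat = n + d ^ k := by
      have : ((n : ℤ) + (d : ℤ) ^ k) = ((n + d ^ k : ℕ) : ℤ) := by push_cast; ring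
      rw [this, Int.toNat_natCast]
    have h1 : |c (n + d ^ k) - c n| ≤ ε / 2 := by
      refine hK _ _ (by omega) hn ?_
      have e2 : d ^ k ≡ 0 [MOD d ^ K] := (Nat.modEq_zero_iff_dvd).2 (pow_dvd_pow _ hk)
      simpa using (Nat.ModEq.refl n).add e2
    rw [Real.dist_eq]
    change |c ((n : ℤ) + (d : ℤ) ^ k).toNat - c n| < ε
    rw [e]
    linarith
  -- boundedness
  have hbdd : ∃ B : ℝ, ∀ n : ℤ, |v n| ≤ B := by
    obtain ⟨K, hK⟩ := hvv 1 one_pos
    refine ⟨∑ j ∈ Finset.range (d ^ K), |v j| + 1, fun n => ?_⟩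
    have h0 : (0 : ℤ) ≤ n % (d : ℤ) ^ K := Int.emod_nonneg _ (hd0 K).ne'
    have h1 : n % (d : ℤ) ^ K < (d : ℤ) ^ K := Int.emod_lt_of_pos _ (hd0 K)
    obtain ⟨j, hj⟩ := Int.eq_ofNat_of_zero_le h0
    have hjlt : j < d ^ K := by
      rw [hj] at h1
      exact_mod_cast h1
    have h2 := hK n j (by rw [← hj]; exact (Int.mod_modEq _ _).symm)
    have h3 : |v j| ≤ ∑ j ∈ Finset.range (d ^ K), |v j| :=
      Finset.single_le_sum (f := fun j : ℕ => |v j|) (fun _ _ => abs_nonneg _)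
        (Finset.mem_range.2 hjlt)
    have h4 : |v n| ≤ |v n - v j| + |v j| := by
      calc |v n| = |(v n - v j) + v j| := by ring_nf
        _ ≤ _ := abs_add_le _ _
    linarith
  obtain ⟨B, hB⟩ := hbdd
  have hB0 : 0 ≤ B := (abs_nonneg _).trans (hB 0)
  have hmem : ∀ m : ℤ, Memℓp (fun n : ℤ => ((v (n + m) : ℝ) : ℂ)) ⊤ := by
    intro m
    rw [memℓp_infty_iff]
    refine ⟨B, ?_⟩
    rintro _ ⟨n, rfl⟩
    simp only [Complex.norm_real, Real.norm_eq_abs]
    exact hB _
  let S : ℤ → lp (fun _ : ℤ => ℂ) ⊤ := fun m => ⟨fun n => ((v (n + m) : ℝ) : ℂ), hmem m⟩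
  have hS : ∀ m n : ℤ, (S m : ℤ → ℂ) n = ((v (n + m) : ℝ) : ℂ) := fun _ _ => rfl
  refine ⟨S 0, ?_, fun n hn => ?_⟩
  · -- compactness
    have hset : {E : lp (fun _ : ℤ => ℂ) ⊤ | ∃ k : ℤ, ∀ n : ℤ, E n = S 0 (n + k)} = Set.range S := by
      ext E
      constructor
      · rintro ⟨k, hk⟩
        refine ⟨k, ?_⟩
        ext n
        rw [hk n, hS, hS]
        congr 2
        ring
      · rintro ⟨k, rfl⟩
        refine ⟨k, fun n => ?_⟩
        rw [hS, hS]
        congr 2
        ring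
    unfold IsAlmostPeriodic
    rw [hset]
    refine TotallyBounded.isCompact_of_isClosed (TotallyBounded.closure ?_) isClosed_closure
    rw [Metric.totallyBounded_iff]
    intro ε hε
    obtain ⟨K, hK⟩ := hvv (ε / 2) (by positivity)
    refine ⟨(fun j : ℕ => S j) '' (Finset.range (d ^ K) : Set ℕ),
      (Finset.finite_toSet _).image _, ?_⟩
    rintro _ ⟨m, rfl⟩
    have h0 : (0 : ℤ) ≤ m % (d : ℤ) ^ K := Int.emod_nonneg _ (hd0 K).ne'
    have h1 : m % (d : ℤ) ^ K < (d : ℤ) ^ K := Int.emod_lt_of_pos _ (hd0 K)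
    obtain ⟨j, hj⟩ := Int.eq_ofNat_of_zero_le h0
    have hjlt : j < d ^ K := by
      rw [hj] at h1
      exact_mod_cast h1
    rw [Set.mem_iUnion₂]
    refine ⟨S j, ⟨j, by simpa using hjlt, rfl⟩, ?_⟩
    rw [Metric.mem_ball, dist_eq_norm]
    refine lt_of_le_of_lt (lp.norm_le_of_forall_le (C := ε / 2) (by positivity) fun n => ?_)
      (by linarith)
    rw [lp.coeFn_sub, Pi.sub_apply, hS, hS, ← Complex.ofReal_sub, Complex.norm_real,
      Real.norm_eq_abs]
    refine hK _ _ ((Int.ModEq.refl n).add ?_)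
    have hmj : m % (d : ℤ) ^ K = (j : ℤ) := hj
    rw [← hmj]
    exact (Int.mod_modEq _ _).symm
  · rw [hS, add_zero, hvc n hn]



/-- the two parts of the energy and the energy with a shifted kernel -/
theorem energy_split {K : Set ℝ} {D : ℝ} (hD : 0 ≤ D) (hK : ∀ x ∈ K, ∀ y ∈ K, |x - y| ≤ D)
    (ν : Measure ℝ) [IsProbabilityMeasure ν] (hν : ν Kᶜ = 0) :
    (∫⁻ x, ∫⁻ y, (if x = y then (⊤ : ENNReal)
        else ENNReal.ofReal (Real.log ((D + 1) / |x - y|))) ∂ν ∂ν)
      + (∫⁻ x, ∫⁻ y, ENNReal.ofReal (Real.log |x - y|) ∂ν ∂ν)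
      = (∫⁻ x, ∫⁻ y, (if x = y then (⊤ : ENNReal) else ENNReal.ofReal (-Real.log |x - y|)) ∂ν ∂ν)
      + ENNReal.ofReal (Real.log (D + 1)) := by
  have hae : ∀ᵐ x ∂ν, x ∈ K := by
    rw [ae_iff]
    exact hν
  have hm : Measurable fun p : ℝ × ℝ => ENNReal.ofReal (Real.log |p.1 - p.2|) := by
    fun_prop
  have hm1 : Measurable fun x : ℝ => ∫⁻ y, ENNReal.ofReal (Real.log |x - y|) ∂ν :=
    hm.lintegral_prod_right'
  have hm2 : ∀ x : ℝ, Measurable fun y : ℝ => ENNReal.ofReal (Real.log |x - y|) := by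
    intro x
    fun_prop
  rw [← lintegral_add_right _ hm1]
  have hc : ENNReal.ofReal (Real.log (D + 1))
      = ∫⁻ x, ∫⁻ y, ENNReal.ofReal (Real.log (D + 1)) ∂ν ∂ν := by simp
  have hm3 : Measurable fun _ : ℝ => ∫⁻ _ : ℝ, ENNReal.ofReal (Real.log (D + 1)) ∂ν := by
    fun_prop
  rw [hc, ← lintegral_add_right _ hm3]
  refine lintegral_congr_ae ?_
  filter_upwards [hae] with x hx
  rw [← lintegral_add_right _ (hm2 x), ← lintegral_add_right _ measurable_const]
  refine lintegral_congr_ae ?_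
  filter_upwards [hae] with y hy
  have hs : 0 ≤ Real.log (D + 1) := Real.log_nonneg (by linarith)
  by_cases hxy : x = y
  · simp [hxy]
  · rw [if_neg hxy, if_neg hxy]
    have h0 : 0 < |x - y| := abs_pos.2 (sub_ne_zero.2 hxy)
    rw [Real.log_div (by linarith) h0.ne']
    have hle : Real.log |x - y| ≤ Real.log (D + 1) :=
      Real.log_le_log h0 (by linarith [hK x hx y hy])
    rcases le_total 0 (Real.log |x - y|) with h | h
    · rw [ENNReal.ofReal_of_nonpos (by linarith : -Real.log |x - y| ≤ 0),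
        ← ENNReal.ofReal_add (by linarith) h, zero_add]
      congr 1
      ring
    · rw [ENNReal.ofReal_of_nonpos h, add_zero, ← ENNReal.ofReal_add (by linarith) hs]
      congr 1
      ring

theorem neg_part_ne_top {K : Set ℝ} {D : ℝ} (hK : ∀ x ∈ K, ∀ y ∈ K, |x - y| ≤ D)
    (hD : 0 ≤ D) (ν : Measure ℝ) [IsProbabilityMeasure ν] (hν : ν Kᶜ = 0) :
    (∫⁻ x, ∫⁻ y, ENNReal.ofReal (Real.log |x - y|) ∂ν ∂ν) ≠ ⊤ := by
  have hae : ∀ᵐ x ∂ν, x ∈ K := by
    rw [ae_iff]
    exact hν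
  have h1 : (∫⁻ x, ∫⁻ y, ENNReal.ofReal (Real.log |x - y|) ∂ν ∂ν)
      ≤ ∫⁻ x, ∫⁻ y, ENNReal.ofReal (Real.log (D + 1)) ∂ν ∂ν := by
    refine lintegral_mono_ae ?_
    filter_upwards [hae] with x hx
    refine lintegral_mono_ae ?_
    filter_upwards [hae] with y hy
    refine ENNReal.ofReal_le_ofReal ?_
    by_cases hxy : x = y
    · rw [hxy, sub_self, abs_zero, Real.log_zero]
      exact Real.log_nonneg (by linarith)
    · exact Real.log_le_log (abs_pos.2 (sub_ne_zero.2 hxy)) (by linarith [hK x hx y hy])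
  refine ne_top_of_le_ne_top ?_ h1
  simp

theorem energy_le {K : Set ℝ} {D : ℝ} (hD : 0 ≤ D) (hK : ∀ x ∈ K, ∀ y ∈ K, |x - y| ≤ D)
    (μ ν : Measure ℝ) [IsProbabilityMeasure μ] (hμ : μ Kᶜ = 0)
    [IsProbabilityMeasure ν] (hν : ν Kᶜ = 0) (h : logEnergy μ ≤ logEnergy ν) :
    (∫⁻ x, ∫⁻ y, (if x = y then (⊤ : ENNReal)
        else ENNReal.ofReal (Real.log ((D + 1) / |x - y|))) ∂μ ∂μ) ≤
      (∫⁻ x, ∫⁻ y, (if x = y then (⊤ : ENNReal)
        else ENNReal.ofReal (Real.log ((D + 1) / |x - y|))) ∂ν ∂ν) := by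
  have e1 := energy_split hD hK μ hμ
  have e2 := energy_split hD hK ν hν
  have n1 := neg_part_ne_top hK hD μ hμ
  have n2 := neg_part_ne_top hK hD ν hν
  unfold logEnergy at h
  generalize (∫⁻ x, ∫⁻ y, (if x = y then (⊤ : ENNReal)
        else ENNReal.ofReal (Real.log ((D + 1) / |x - y|))) ∂μ ∂μ) = E1 at e1 ⊢
  generalize (∫⁻ x, ∫⁻ y, (if x = y then (⊤ : ENNReal)
        else ENNReal.ofReal (Real.log ((D + 1) / |x - y|))) ∂ν ∂ν) = E2 at e2 ⊢
  generalize (∫⁻ x, ∫⁻ y, ENNReal.ofReal (Real.log |x - y|) ∂μ ∂μ) = N1 at e1 h n1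
  generalize (∫⁻ x, ∫⁻ y, ENNReal.ofReal (Real.log |x - y|) ∂ν ∂ν) = N2 at e2 h n2
  generalize (∫⁻ x, ∫⁻ y, (if x = y then (⊤ : ENNReal)
      else ENNReal.ofReal (-Real.log |x - y|)) ∂μ ∂μ) = P1 at e1 h
  generalize (∫⁻ x, ∫⁻ y, (if x = y then (⊤ : ENNReal)
      else ENNReal.ofReal (-Real.log |x - y|)) ∂ν ∂ν) = P2 at e2 h
  have hs : ENNReal.ofReal (Real.log (D + 1)) ≠ ⊤ := ENNReal.ofReal_ne_top
  generalize ENNReal.ofReal (Real.log (D + 1)) = s at e1 e2 hs
  by_cases hE2 : E2 = ⊤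
  · rw [hE2]; exact le_top
  have hP2 : P2 ≠ ⊤ := by
    rintro rfl
    rw [top_add] at e2
    exact (ENNReal.add_ne_top.2 ⟨hE2, n2⟩) e2
  lift N1 to NNReal using n1
  lift N2 to NNReal using n2
  lift s to NNReal using hs
  lift E2 to NNReal using hE2
  lift P2 to NNReal using hP2
  have hP1 : P1 ≠ ⊤ := by
    rintro rfl
    have h2 : ((⊤ : ENNReal) : EReal) - (((N1 : NNReal) : ENNReal) : EReal) = ⊤ := by
      rw [EReal.coe_ennreal_top]
      rfl
    rw [h2, top_le_iff] at h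
    have h3 : (((P2 : NNReal) : ENNReal) : EReal) - (((N2 : NNReal) : ENNReal) : EReal)
        = (((P2 : ℝ) - (N2 : ℝ) : ℝ) : EReal) := by
      rw [EReal.coe_sub]
      rfl
    rw [h3] at h
    exact EReal.coe_ne_top _ h
  lift P1 to NNReal using hP1
  have hE1 : E1 ≠ ⊤ := by
    rintro rfl
    rw [top_add] at e1
    exact (ENNReal.add_ne_top.2 ⟨ENNReal.coe_ne_top, ENNReal.coe_ne_top⟩) e1.symm
  lift E1 to NNReal using hE1
  have f1 : (E1 : ℝ) + N1 = P1 + s := by exact_mod_cast e1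
  have f2 : (E2 : ℝ) + N2 = P2 + s := by exact_mod_cast e2
  have f3 : (P1 : ℝ) - N1 ≤ P2 - N2 := by
    have h3 : (((P2 : NNReal) : ENNReal) : EReal) - (((N2 : NNReal) : ENNReal) : EReal)
        = (((P2 : ℝ) - (N2 : ℝ) : ℝ) : EReal) := by
      rw [EReal.coe_sub]
      rfl
    have h4 : (((P1 : NNReal) : ENNReal) : EReal) - (((N1 : NNReal) : ENNReal) : EReal)
        = (((P1 : ℝ) - (N1 : ℝ) : ℝ) : EReal) := by
      rw [EReal.coe_sub]
      rfl
    rw [h3, h4] at h
    exact_mod_cast h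
  have f4 : (E1 : ℝ) ≤ E2 := by linarith
  exact_mod_cast f4


section rec

open Pool.Agent.Work.MP_e056c9_an

variable {Λ : ℝ[X] →ₗ[ℝ] ℝ} (hpos : ∀ p : ℝ[X], p ≠ 0 → 0 < Λ (p ^ 2)) {P : ℕ → ℝ[X]}
  (hP : ∀ n, IsOP Λ n (P n))
include hpos hP

theorem sq_pos' (n : ℕ) : 0 < Λ (P n ^ 2) := hpos _ (hP n).monic.ne_zero

theorem orth' {m n : ℕ} (h : m < n) : Λ (P n * P m) = 0 := by
  refine (hP n).orth _ ?_
  rw [degree_eq_natDegree (hP m).monic.ne_zero, (hP m).deg]
  exact_mod_cast h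

/-- `x P_n` against `P_{n+1}` -/
theorem cross (n : ℕ) : Λ (X * P n * P (n + 1)) = Λ (P (n + 1) ^ 2) := by
  have h1 : (X * P n - P (n + 1)).degree < ((n + 1 : ℕ) : WithBot ℕ) := by
    have hd1 : (X * P n).degree = ((n + 1 : ℕ) : WithBot ℕ) := by
      rw [degree_eq_natDegree (mul_ne_zero X_ne_zero (hP n).monic.ne_zero),
        natDegree_mul X_ne_zero (hP n).monic.ne_zero, natDegree_X, (hP n).deg, add_comm]
    have hd2 : (P (n + 1)).degree = ((n + 1 : ℕ) : WithBot ℕ) := by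
      rw [degree_eq_natDegree (hP (n + 1)).monic.ne_zero, (hP (n + 1)).deg]
    have h := degree_sub_lt_left (hd1.trans hd2.symm) (mul_ne_zero X_ne_zero (hP n).monic.ne_zero)
      (by rw [(monic_X.mul (hP n).monic).leadingCoeff, (hP (n + 1)).monic.leadingCoeff])
    rw [hd1] at h
    exact h
  have h2 := (hP (n + 1)).orth _ h1
  have e : X * P n * P (n + 1) = P (n + 1) * (X * P n - P (n + 1)) + P (n + 1) ^ 2 := by ring
  rw [e, map_add, h2, zero_add]

/-- the coefficients are determined by the recurrence -/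
theorem coeff_eq {a b : ℕ → ℝ} (h1 : P 1 = X - C (b 1))
    (hrec : ∀ n, 1 ≤ n → P (n + 1) = (X - C (b (n + 1))) * P n - C (a n ^ 2) * P (n - 1)) :
    (∀ n, b (n + 1) = bJ Λ P n) ∧ ∀ n, a (n + 1) ^ 2 = aJ Λ P n := by
  have hP0 : P 0 = 1 := by
    have := (hP 0).monic
    exact (this.natDegree_eq_zero).1 (hP 0).deg
  constructor
  · intro n
    unfold bJ
    rw [eq_div_iff (sq_pos' hpos hP n).ne']
    rcases Nat.eq_zero_or_pos n with h0 | h0
    · subst h0
      have h2 := orth' hpos hP (m := 0) (n := 1) one_pos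
      rw [h1, hP0, mul_one, map_sub] at h2
      rw [hP0, one_pow, mul_one, zero_add]
      have e : C (b 1) = b 1 • (1 : ℝ[X]) := by rw [smul_eq_C_mul, mul_one]
      rw [e, map_smul, smul_eq_mul] at h2
      linarith
    · have h2 := orth' hpos hP (m := n) (n := n + 1) (Nat.lt_succ_self n)
      have h3 := orth' hpos hP (m := n - 1) (n := n) (by omega)
      rw [hrec n h0] at h2
      have e : ((X - C (b (n + 1))) * P n - C (a n ^ 2) * P (n - 1)) * P n
          = X * P n ^ 2 - b (n + 1) • P n ^ 2 - a n ^ 2 • (P n * P (n - 1)) := by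
        rw [smul_eq_C_mul, smul_eq_C_mul]; ring
      rw [e, map_sub, map_sub, map_smul, map_smul, h3, smul_zero, sub_zero, smul_eq_mul] at h2
      linarith
  · intro n
    unfold aJ
    rw [eq_div_iff (sq_pos' hpos hP n).ne']
    have h2 := orth' hpos hP (m := n) (n := n + 2) (by omega)
    have h3 := orth' hpos hP (m := n) (n := n + 1) (by omega)
    have h4 := cross hpos hP n
    have h5 := hrec (n + 1) (by omega)
    rw [Nat.add_sub_cancel] at h5
    rw [show n + 2 = n + 1 + 1 from rfl, h5] at h2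
    have e : ((X - C (b (n + 1 + 1))) * P (n + 1) - C (a (n + 1) ^ 2) * P n) * P n
        = X * P n * P (n + 1) - b (n + 1 + 1) • (P (n + 1) * P n) - a (n + 1) ^ 2 • P n ^ 2 := by
      rw [smul_eq_C_mul, smul_eq_C_mul]; ring
    rw [e, map_sub, map_sub, map_smul, map_smul, h3, smul_zero, sub_zero, smul_eq_mul, h4] at h2
    linarith

/-- a polynomial of degree `< n` orthogonal to all of degree `< n` vanishes -/
theorem eq_zero_of_orth {R : ℝ[X]} (h : Λ (R * R) = 0) : R = 0 := by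
  by_contra hne
  have := hpos R hne
  rw [pow_two, h] at this
  exact lt_irrefl _ this

/-- the three-term recurrence -/
theorem three_term : P 1 = X - C (bJ Λ P 0) ∧
    ∀ n, P (n + 2) = (X - C (bJ Λ P (n + 1))) * P (n + 1) - C (aJ Λ P n) * P n := by
  have hP0 : P 0 = 1 := by
    have := (hP 0).monic
    exact (this.natDegree_eq_zero).1 (hP 0).deg
  have key : ∀ (n : ℕ) (Q : ℝ[X]), Q.Monic → Q.natDegree = n →
      (∀ q : ℝ[X], q.degree < n → Λ (Q * q) = 0) → P n = Q := by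
    intro n Q hQ hQd hQo
    have hlt : n = 0 ∨ (P n - Q).degree < (n : WithBot ℕ) := by
      right
      have hd1 : (P n).degree = (n : WithBot ℕ) := by
        rw [degree_eq_natDegree (hP n).monic.ne_zero, (hP n).deg]
      have hd2 : Q.degree = (n : WithBot ℕ) := by
        rw [degree_eq_natDegree hQ.ne_zero, hQd]
      have h := degree_sub_lt_left (hd1.trans hd2.symm) (hP n).monic.ne_zero
        (by rw [(hP n).monic.leadingCoeff, hQ.leadingCoeff])
      rw [hd1] at h
      exact h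
    have hlt' : (P n - Q).degree < (n : WithBot ℕ) := by
      rcases hlt with h0 | h0
      · subst h0
        rw [hP0, (hQ.natDegree_eq_zero).1 hQd, sub_self, degree_zero]
        exact WithBot.bot_lt_coe _
      · exact h0
    have h1 := (hP n).orth _ hlt'
    have h2 := hQo _ hlt'
    have h3 : P n - Q = 0 := by
      refine eq_zero_of_orth hpos hP ?_
      rw [sub_mul, map_sub, h1, h2, sub_zero]
    exact sub_eq_zero.1 h3
  constructor
  · refine key 1 _ (monic_X_sub_C _) (natDegree_X_sub_C _) ?_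
    intro q hq
    have hq0 : q = C (q.coeff 0) := by
      rw [degree_lt_iff_coeff_zero] at hq
      ext m
      rw [coeff_C]
      split_ifs with h0
      · rw [h0]
      · exact hq m (by omega)
    rw [hq0]
    have e : (X - C (bJ Λ P 0)) * C (q.coeff 0)
        = q.coeff 0 • (X * P 0 ^ 2 - bJ Λ P 0 • P 0 ^ 2) := by
      rw [hP0, smul_eq_C_mul, smul_eq_C_mul]; ring
    rw [e, map_smul, map_sub, map_smul, smul_eq_mul, smul_eq_mul]
    unfold bJ
    rw [div_mul_cancel₀ _ (sq_pos' hpos hP 0).ne', sub_self, mul_zero]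
  · intro n
    have hdeg : (C (bJ Λ P (n + 1)) * P (n + 1) + C (aJ Λ P n) * P n).degree
        < (X * P (n + 1)).degree := by
      have hd1 : (X * P (n + 1)).degree = ((n + 2 : ℕ) : WithBot ℕ) := by
        rw [degree_eq_natDegree (mul_ne_zero X_ne_zero (hP (n + 1)).monic.ne_zero),
          natDegree_mul X_ne_zero (hP (n + 1)).monic.ne_zero, natDegree_X, (hP (n + 1)).deg]
        congr 1
        omega
      rw [hd1]
      have hd2 : ∀ (s : ℝ) (m : ℕ), m < n + 2 → (C s * P m).degree < ((n + 2 : ℕ) : WithBot ℕ) := by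
        intro s m hm
        rw [← smul_eq_C_mul]
        refine lt_of_le_of_lt (degree_smul_le _ _) ?_
        rw [degree_eq_natDegree (hP m).monic.ne_zero, (hP m).deg]
        exact_mod_cast hm
      exact lt_of_le_of_lt (degree_add_le _ _) (max_lt (hd2 _ _ (by omega)) (hd2 _ _ (by omega)))
    have e0 : (X - C (bJ Λ P (n + 1))) * P (n + 1) - C (aJ Λ P n) * P n
        = X * P (n + 1) - (C (bJ Λ P (n + 1)) * P (n + 1) + C (aJ Λ P n) * P n) := by ring
    have hmonic : ((X - C (bJ Λ P (n + 1))) * P (n + 1) - C (aJ Λ P n) * P n).Monic := by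
      rw [e0]
      exact (monic_X.mul (hP (n + 1)).monic).sub_of_left hdeg
    refine key (n + 2) _ hmonic ?_ ?_
    · rw [e0, natDegree_eq_of_degree_eq (degree_sub_eq_left_of_degree_lt hdeg),
        natDegree_mul X_ne_zero (hP (n + 1)).monic.ne_zero, natDegree_X, (hP (n + 1)).deg]
      omega
    · -- orthogonality
      set Q := (X - C (bJ Λ P (n + 1))) * P (n + 1) - C (aJ Λ P n) * P n with hQ
      have hQn1 : Λ (Q * P (n + 1)) = 0 := by
        have e : Q * P (n + 1) = X * P (n + 1) ^ 2 - bJ Λ P (n + 1) • P (n + 1) ^ 2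
            - aJ Λ P n • (P (n + 1) * P n) := by
          rw [hQ, smul_eq_C_mul, smul_eq_C_mul]; ring
        rw [e, map_sub, map_sub, map_smul, map_smul, orth' hpos hP (Nat.lt_succ_self n),
          smul_zero, sub_zero, smul_eq_mul]
        unfold bJ
        rw [div_mul_cancel₀ _ (sq_pos' hpos hP _).ne', sub_self]
      have hQn : Λ (Q * P n) = 0 := by
        have e : Q * P n = X * P n * P (n + 1) - bJ Λ P (n + 1) • (P (n + 1) * P n)
            - aJ Λ P n • P n ^ 2 := by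
          rw [hQ, smul_eq_C_mul, smul_eq_C_mul]; ring
        rw [e, map_sub, map_sub, map_smul, map_smul, orth' hpos hP (Nat.lt_succ_self n),
          smul_zero, sub_zero, smul_eq_mul, cross hpos hP n]
        unfold aJ
        rw [div_mul_cancel₀ _ (sq_pos' hpos hP _).ne', sub_self]
      have hQlow : ∀ q : ℝ[X], q.degree < n → Λ (Q * q) = 0 := by
        intro q hq
        have e : Q * q = P (n + 1) * ((X - C (bJ Λ P (n + 1))) * q) - aJ Λ P n • (P n * q) := by
          rw [hQ, smul_eq_C_mul]; ring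
        rw [e, map_sub, map_smul, (hP n).orth q hq, smul_zero, sub_zero]
        refine (hP (n + 1)).orth _ ?_
        by_cases hq0 : q = 0
        · rw [hq0, mul_zero, degree_zero]
          exact WithBot.bot_lt_coe _
        · rw [degree_mul, degree_X_sub_C, degree_eq_natDegree hq0]
          rw [degree_eq_natDegree hq0] at hq
          have : q.natDegree < n := by exact_mod_cast hq
          have h2 : 1 + q.natDegree < n + 1 := by omega
          exact_mod_cast h2
      -- division by `P (n+1)` and `P n`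
      intro q hq
      have hq1 : ∃ (s : ℝ) (q1 : ℝ[X]), q1.degree < ((n + 1 : ℕ) : WithBot ℕ) ∧
          q = s • P (n + 1) + q1 := by
        refine ⟨q.coeff (n + 1), q - q.coeff (n + 1) • P (n + 1), ?_, by ring⟩
        rw [degree_lt_iff_coeff_zero]
        intro m hm
        rw [coeff_sub, coeff_smul, smul_eq_mul]
        rcases Nat.eq_or_lt_of_le hm with h0 | h0
        · rw [← h0]
          have : (P (n + 1)).coeff (n + 1) = 1 := by
            have := (hP (n + 1)).monic.coeff_natDegree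
            rw [(hP (n + 1)).deg] at this
            exact this
          rw [this]; ring
        · rw [coeff_eq_zero_of_degree_lt (lt_of_lt_of_le hq (by exact_mod_cast (by omega : n + 2 ≤ m))),
            coeff_eq_zero_of_natDegree_lt (p := P (n + 1)) (by rw [(hP (n + 1)).deg]; exact h0)]
          ring
      obtain ⟨s, q1, hq1d, hq1e⟩ := hq1
      have hq2 : ∃ (s : ℝ) (q2 : ℝ[X]), q2.degree < (n : WithBot ℕ) ∧ q1 = s • P n + q2 := by
        refine ⟨q1.coeff n, q1 - q1.coeff n • P n, ?_, by ring⟩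
        rw [degree_lt_iff_coeff_zero]
        intro m hm
        rw [coeff_sub, coeff_smul, smul_eq_mul]
        rcases Nat.eq_or_lt_of_le hm with h0 | h0
        · rw [← h0]
          have : (P n).coeff n = 1 := by
            have := (hP n).monic.coeff_natDegree
            rw [(hP n).deg] at this
            exact this
          rw [this]; ring
        · rw [coeff_eq_zero_of_degree_lt (lt_of_lt_of_le hq1d (by exact_mod_cast (by omega : n + 1 ≤ m))),
            coeff_eq_zero_of_natDegree_lt (p := P n) (by rw [(hP n).deg]; exact h0)]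
          ring
      obtain ⟨s2, q2, hq2d, hq2e⟩ := hq2
      rw [hq1e, hq2e, mul_add, mul_add, mul_smul_comm, mul_smul_comm, map_add, map_add, map_smul,
        map_smul, hQn1, hQn, hQlow q2 hq2d]
      simp

end rec


section julia

open Pool.Agent.BJ (filled)

variable {f : ℂ[X]}

theorem sph_continuous (hd : 2 ≤ f.natDegree) : Continuous (sph f) := by
  refine OnePoint.continuous_map f.continuous ?_
  rw [coclosedCompact_eq_cocompact, ← Metric.cobounded_eq_cocompact]
  rw [← tendsto_norm_atTop_iff_cobounded]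
  exact f.tendsto_norm_atTop (natDegree_pos_iff_degree_pos.1 (by omega))
    tendsto_norm_cobounded_atTop

theorem sph_iter_coe (n : ℕ) (z : ℂ) :
    (sph f)^[n] (z : OnePoint ℂ) = (((fun w : ℂ => f.eval w)^[n] z : ℂ) : OnePoint ℂ) := by
  induction n generalizing z with
  | zero => rfl
  | succ n ih =>
    rw [Function.iterate_succ_apply, Function.iterate_succ_apply, ← ih]
    rfl

theorem sph_iter_infty (n : ℕ) : (sph f)^[n] (OnePoint.infty) = OnePoint.infty := by
  induction n with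
  | zero => rfl
  | succ n ih =>
    rw [Function.iterate_succ_apply']
    rw [ih]
    rfl

/-- an open neighbourhood of infinity -/
def Wset (ρ : ℝ) : Set (OnePoint ℂ) := (((↑) : ℂ → OnePoint ℂ) '' Metric.closedBall 0 ρ)ᶜ

theorem Wset_open (ρ : ℝ) : IsOpen (Wset ρ) :=
  OnePoint.isOpen_compl_image_coe.2 ⟨Metric.isClosed_closedBall, isCompact_closedBall _ _⟩

theorem mem_Wset {ρ : ℝ} {z : ℂ} : (z : OnePoint ℂ) ∈ Wset ρ ↔ ρ < ‖z‖ := by
  unfold Wset
  rw [Set.mem_compl_iff, Set.mem_image]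
  constructor
  · intro h
    by_contra hc
    exact h ⟨z, by rw [mem_closedBall_zero_iff]; linarith, rfl⟩
  · rintro h ⟨w, hw, hwz⟩
    rw [OnePoint.coe_eq_coe] at hwz
    rw [hwz, mem_closedBall_zero_iff] at hw
    linarith

theorem infty_mem_Wset (ρ : ℝ) : OnePoint.infty ∈ Wset ρ := by
  rintro ⟨w, -, hw⟩
  exact OnePoint.coe_ne_infty _ hw

theorem Wset_maps {R : ℝ} (hR0 : 0 < R) (hR : ∀ z : ℂ, R ≤ ‖z‖ → 2 * ‖z‖ ≤ ‖f.eval z‖) {ρ : ℝ}
    (hρ : R ≤ ρ) {p : OnePoint ℂ} (hp : p ∈ Wset ρ) : sph f p ∈ Wset ρ := by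
  induction p using OnePoint.rec with
  | infty => exact infty_mem_Wset ρ
  | coe z =>
    rw [mem_Wset] at hp
    have h1 : sph f (z : OnePoint ℂ) = ((f.eval z : ℂ) : OnePoint ℂ) := rfl
    rw [h1, mem_Wset]
    have := hR z (by linarith)
    have h3 : 0 < ‖z‖ := by linarith
    linarith

/-- near a point which escapes (or near infinity) the iterates are normal -/
theorem normalOn_compl (hd : 2 ≤ f.natDegree) :
    NormalOn f (((↑) : ℂ → OnePoint ℂ) '' filled f)ᶜ := by
  classical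
  intro k hk
  have hcont : ∀ n : ℕ, Continuous ((sph f)^[n]) := fun n => (sph_continuous hd).iterate n
  set U : Set (OnePoint ℂ) := (((↑) : ℂ → OnePoint ℂ) '' filled f)ᶜ with hU
  obtain ⟨R, hR0, hR⟩ := Pool.Agent.BJ.exists_escape_radius f hd
  let res : ℕ → C(U, OnePoint ℂ) := fun n =>
    ⟨fun z => (sph f)^[n] z, (hcont n).comp continuous_subtype_val⟩
  have hres : ∀ n (z : U), res n z = (sph f)^[n] z := fun _ _ => rfl
  obtain ⟨e, he⟩ := exists_increasing_or_nonincreasing_subseq (· < ·) k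
  rcases he with he | he
  · -- strictly increasing
    refine ⟨e, e.strictMono, fun j => res (k (e j)), ContinuousMap.const _ OnePoint.infty,
      fun j z => rfl, ?_⟩
    have hmono : StrictMono fun j => k (e j) := fun m n hmn => he m n hmn
    have htop : Tendsto (fun j => k (e j)) atTop atTop := hmono.tendsto_atTop
    rw [ContinuousMap.tendsto_nhds_compactOpen]
    intro C hC V hV hCV
    rcases C.eq_empty_or_nonempty with h0 | ⟨p0, hp0⟩
    · rw [h0]
      exact Eventually.of_forall fun j => Set.mapsTo_empty _ _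
    have hinf : OnePoint.infty ∈ V := hCV hp0
    -- a disc complement in `V`
    obtain ⟨ρ, hρR, hρV⟩ : ∃ ρ : ℝ, R ≤ ρ ∧ Wset ρ ⊆ V := by
      have h1 := (OnePoint.isOpen_iff_of_mem hinf).1 hV
      obtain ⟨B, hB⟩ := h1.2.isBounded.exists_norm_le
      refine ⟨max R B, le_max_left _ _, ?_⟩
      intro p hp
      induction p using OnePoint.rec with
      | infty => exact hinf
      | coe z =>
        rw [mem_Wset] at hp
        by_contra hz
        have h2 := hB z hz
        have := le_max_right R B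
        linarith
    -- uniform entry time
    have hmonoO : ∀ (n : ℕ) (p : OnePoint ℂ), (sph f)^[n] p ∈ Wset ρ →
        (sph f)^[n + 1] p ∈ Wset ρ := by
      intro n p hp
      rw [Function.iterate_succ_apply']
      exact Wset_maps hR0 hR hρR hp
    have hmonoO' : ∀ (n m : ℕ), n ≤ m → ∀ p : OnePoint ℂ, (sph f)^[n] p ∈ Wset ρ →
        (sph f)^[m] p ∈ Wset ρ := by
      intro n m hnm p hp
      induction m, hnm using Nat.le_induction with
      | base => exact hp
      | succ m _ ih => exact hmonoO m p ih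
    have hcover : C ⊆ ⋃ n : ℕ, (res n) ⁻¹' Wset ρ := by
      rintro ⟨p, hp⟩ -
      rw [Set.mem_iUnion]
      induction p using OnePoint.rec with
      | infty =>
        exact ⟨0, infty_mem_Wset ρ⟩
      | coe z =>
        have hz : z ∉ filled f := fun hz => hp ⟨z, hz, rfl⟩
        have ht := Pool.Agent.BJ.not_mem_filled_tendsto hR0 hR hz
        obtain ⟨n, hn⟩ := (ht.eventually_gt_atTop ρ).exists
        refine ⟨n, ?_⟩
        change (sph f)^[n] (z : OnePoint ℂ) ∈ Wset ρ
        rw [sph_iter_coe, mem_Wset]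
        exact hn
    obtain ⟨N, hN⟩ := hC.elim_directed_cover (fun n : ℕ => (res n) ⁻¹' Wset ρ)
      (fun n => (Wset_open ρ).preimage (res n).continuous) hcover
      (Monotone.directed_le fun n m hnm p hp => hmonoO' n m hnm p hp)
    filter_upwards [htop.eventually_ge_atTop N] with j hj
    intro p hp
    exact hρV (hmonoO' N _ hj p (hN hp))
  · -- eventually constant
    obtain ⟨N, hN⟩ : ∃ N : ℕ, ∀ n, N ≤ n → k (e n) = k (e N) := by
      have hne : (Set.range fun n => k (e n)).Nonempty := ⟨_, 0, rfl⟩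
      obtain ⟨N, hN⟩ := Nat.sInf_mem hne
      refine ⟨N, fun n hn => ?_⟩
      have h1 : k (e N) ≤ k (e n) := by
        have h2 : k (e N) = sInf (Set.range fun n => k (e n)) := hN
        rw [h2]
        exact Nat.sInf_le ⟨n, rfl⟩
      rcases Nat.eq_or_lt_of_le hn with h0 | h0
      · rw [h0]
      · exact le_antisymm (not_lt.1 (he N n h0)) h1
    refine ⟨fun j => e (N + j), ?_, fun _ => res (k (e N)), res (k (e N)), ?_, tendsto_const_nhds⟩
    · intro a b hab
      exact e.strictMono (by omega)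
    · intro j z
      rw [hres, hN (N + j) (by omega)]

theorem mem_fatou_of_not_filled (hd : 2 ≤ f.natDegree) {z : ℂ} (hz : z ∉ filled f) :
    (z : OnePoint ℂ) ∈ fatouSet f := by
  refine ⟨_, OnePoint.isOpen_compl_image_coe.2 ⟨Pool.Agent.BJ.filled_isClosed hd,
    Pool.Agent.BJ.filled_isCompact hd⟩, ?_, normalOn_compl hd⟩
  rintro ⟨w, hw, hwz⟩
  rw [OnePoint.coe_eq_coe] at hwz
  rw [hwz] at hw
  exact hz hw

/-- boundary points of the filled Julia set are in the Julia set -/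
theorem mem_julia_of_frontier (hd : 2 ≤ f.natDegree) {z : ℂ} (hz : z ∈ frontier (filled f)) :
    (z : OnePoint ℂ) ∈ juliaSet f := by
  rintro ⟨U, hU, hzU, hN⟩
  obtain ⟨φ, hφ, g, G, hg, hG⟩ := hN (fun j => j + 1) (fun j => by omega)
  obtain ⟨R, hR0, hR⟩ := Pool.Agent.BJ.exists_escape_radius f hd
  have hzF : z ∈ filled f := (Pool.Agent.BJ.filled_isClosed hd).frontier_subset hz
  obtain ⟨B, hB⟩ := Bornology.IsBounded.exists_norm_le
    (show Bornology.IsBounded (Set.range (fun n : ℕ => (fun w : ℂ => f.eval w)^[n] z)) from hzF)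
  have hB' : ∀ n : ℕ, ‖(fun w : ℂ => f.eval w)^[n] z‖ ≤ B := fun n => hB _ ⟨n, rfl⟩
  -- the limit at `z` is finite
  have hGz : G ⟨z, hzU⟩ ∈ ((↑) : ℂ → OnePoint ℂ) '' Metric.closedBall 0 B := by
    have hcl : IsClosed (((↑) : ℂ → OnePoint ℂ) '' Metric.closedBall 0 B) :=
      OnePoint.isClosed_image_coe.2 ⟨Metric.isClosed_closedBall, isCompact_closedBall _ _⟩
    have hev : Tendsto (fun j => g j ⟨z, hzU⟩) atTop (𝓝 (G ⟨z, hzU⟩)) :=
      ((continuous_eval_const (F := C(U, OnePoint ℂ)) (⟨z, hzU⟩ : U)).tendsto G).comp hG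
    refine hcl.mem_of_tendsto hev (Eventually.of_forall fun j => ?_)
    rw [hg]
    change (sph f)^[φ j + 1] (z : OnePoint ℂ) ∈ _
    rw [sph_iter_coe]
    exact ⟨_, by rw [mem_closedBall_zero_iff]; exact hB' _, rfl⟩
  set V : Set (OnePoint ℂ) := ((↑) : ℂ → OnePoint ℂ) '' Metric.ball 0 (B + 1) with hV
  have hVo : IsOpen V := OnePoint.isOpen_image_coe.2 Metric.isOpen_ball
  have hGV : G ⟨z, hzU⟩ ∈ V := by
    obtain ⟨w, hw, hwe⟩ := hGz
    rw [mem_closedBall_zero_iff] at hw
    exact ⟨w, by rw [mem_ball_zero_iff]; linarith, hwe⟩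
  have hlc : LocallyCompactSpace U := hU.locallyCompactSpace
  have hnb : G ⁻¹' V ∈ 𝓝 (⟨z, hzU⟩ : U) := (hVo.preimage G.continuous).mem_nhds hGV
  obtain ⟨C, hCn, hCV, hC⟩ := local_compact_nhds hnb
  have hev := (ContinuousMap.tendsto_nhds_compactOpen.1 hG) C hC V hVo hCV
  -- the trace of `C` in the plane
  have hCn' : {w : ℂ | ∃ h : (w : OnePoint ℂ) ∈ U, (⟨w, h⟩ : U) ∈ C} ∈ 𝓝 z := by
    have h1 : Subtype.val '' C ∈ 𝓝 (z : OnePoint ℂ) := by
      have := hU.isOpenEmbedding_subtypeVal.isOpenMap.image_mem_nhds hCn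
      exact this
    have h2 := OnePoint.continuous_coe.continuousAt.preimage_mem_nhds h1
    refine mem_of_superset h2 ?_
    rintro w ⟨⟨p, hp⟩, hpC, hpw⟩
    change p = (w : OnePoint ℂ) at hpw
    subst hpw
    exact ⟨hp, hpC⟩
  have hzc : z ∈ closure (filled f)ᶜ := by
    rw [frontier_eq_closure_inter_closure] at hz
    exact hz.2
  obtain ⟨w, ⟨hwU, hwC⟩, hwF⟩ := mem_closure_iff_nhds.1 hzc _ hCn'
  have ht := Pool.Agent.BJ.not_mem_filled_tendsto hR0 hR hwF
  have ht2 : Tendsto (fun j => ‖(fun w : ℂ => f.eval w)^[φ j + 1] w‖) atTop atTop :=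
    ht.comp (tendsto_atTop_mono (fun j => Nat.le_succ _) hφ.tendsto_atTop)
  obtain ⟨j, hj1, hj2⟩ := (hev.and (ht2.eventually_ge_atTop (B + 1))).exists
  have h3 := hj1 hwC
  rw [hg] at h3
  change (sph f)^[φ j + 1] (w : OnePoint ℂ) ∈ V at h3
  rw [sph_iter_coe] at h3
  obtain ⟨w', hw', hwe⟩ := h3
  rw [OnePoint.coe_eq_coe] at hwe
  rw [hwe, mem_ball_zero_iff] at hw'
  linarith

/-- the Julia set is the boundary of the filled Julia set, if it is real -/
theorem julia_eq (hd : 2 ≤ f.natDegree) (hr : juliaSet f ⊆ realLine) :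
    {z : ℂ | (z : OnePoint ℂ) ∈ juliaSet f} = frontier (filled f) := by
  have h1 : frontier (filled f) ⊆ Set.range ((↑) : ℝ → ℂ) := by
    intro z hz
    obtain ⟨x, hx⟩ := hr (mem_julia_of_frontier hd hz)
    exact ⟨x, OnePoint.coe_eq_coe.1 hx⟩
  have h2 := Pool.Agent.BJ.frontier_eq_filled hd h1
  apply Set.Subset.antisymm
  · intro z hz
    rw [h2]
    by_contra hc
    exact hz (mem_fatou_of_not_filled hd hc)
  · intro z hz
    exact mem_julia_of_frontier hd hz

end julia



/-- **Theorem.** Let `f` be a complex polynomial of degree `d ≥ 2` whose Julia set is real and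
totally disconnected, and `μ` the equilibrium measure of the Julia set. Then `μ` has recurrence
coefficients, and for all recurrence coefficients `(a_n)`, `(b_n)` of `μ` both sequences are almost
periodic; they are even uniform limits of sequences with periods `d ^ k`. -/
theorem result : ∀ f : ℂ[X], 2 ≤ f.natDegree → juliaSet f ⊆ realLine →
    IsTotallyDisconnected (juliaSet f) →
    ∀ μ : Measure ℝ, IsEquilibriumMeasure (realJulia f) μ →
      (∃ a b : ℕ → ℝ, IsRecurrenceCoeffs μ a b) ∧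
      ∀ a b : ℕ → ℝ, IsRecurrenceCoeffs μ a b →
        (AlmostPeriodic a ∧ AlmostPeriodic b) ∧
          IsLimitPeriodic f.natDegree a ∧ IsLimitPeriodic f.natDegree b := by
  intro F hd hr htd μ hμ
  obtain ⟨hprob, hsupp, hmin⟩ := hμ
  set J : Set ℂ := {z : ℂ | (z : OnePoint ℂ) ∈ juliaSet F} with hJdef
  have hJ : J = frontier (Pool.Agent.BJ.filled F) := julia_eq hd hr
  have hreal : J ⊆ Set.range ((↑) : ℝ → ℂ) := by
    intro z hz
    obtain ⟨x, hx⟩ := hr hz
    exact ⟨x, OnePoint.coe_eq_coe.1 hx⟩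
  have htdJ : IsTotallyDisconnected J := by
    refine isTotallyDisconnected_of_image (f := ((↑) : ℂ → OnePoint ℂ))
      OnePoint.continuous_coe.continuousOn OnePoint.coe_injective ?_
    intro t ht htc
    refine htd t (ht.trans ?_) htc
    rintro _ ⟨z, hz, rfl⟩
    exact hz
  obtain ⟨f, α, β, c, hFf, hHull, hGood, hJK⟩ :=
    Pool.Agent.BJ.structure_S F hd J hJ hreal htdJ
  have hset : realJulia F = Work.MP_e056c9_an.K f α β := by
    ext x
    have h1 : x ∈ realJulia F ↔ (x : ℂ) ∈ J := Iff.rfl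
    rw [h1, hJK]
    constructor
    · rintro ⟨y, hy, hyx⟩
      rw [Complex.ofReal_inj] at hyx
      rw [← hyx]; exact hy
    · intro hx; exact ⟨x, hx, rfl⟩
  rw [hset] at hsupp hmin
  have hKc := Work.MP_e056c9_an.Pot.K_isCompact f α β
  have hmin' : ∀ ν : Measure ℝ, IsProbabilityMeasure ν → ν (Work.MP_e056c9_an.K f α β)ᶜ = 0 →
      Work.MP_e056c9_an.energy (Metric.diam (Work.MP_e056c9_an.K f α β)) μ ≤
        Work.MP_e056c9_an.energy (Metric.diam (Work.MP_e056c9_an.K f α β)) ν := by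
    intro ν hν hνs
    exact energy_le Metric.diam_nonneg
      (fun x hx y hy => by
        rw [← Real.dist_eq]
        exact Metric.dist_le_diam_of_mem hKc.isBounded hx hy) μ ν hsupp hνs (hmin ν hν hνs)
  obtain ⟨hbal, hpos⟩ := Work.MP_e056c9_an.Pot.potential_P f α β c hHull hGood μ hprob hsupp hmin'
  have hs : μ (Set.Icc α β)ᶜ = 0 :=
    measure_mono_null (Set.compl_subset_compl.2 (Work.MP_e056c9_an.Pot.K_subset f α β)) hsupp
  obtain ⟨M, hC⟩ := Work.MP_e056c9_an.core_of hHull μ hs hbal hpos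
  have hU := Work.MP_e056c9_an.coreClaim_of
    (fun _ _ _ _ _ _ hC hid => Work.MP_e056c9_an.degHyp hC hid) f α β c _ M hC hGood
  set Λ := Work.MP_e056c9_an.Lm μ (Work.MP_e056c9_an.int_poly μ hs) with hΛ
  have hΛa : ∀ p : ℝ[X], Λ p = ∫ x, p.eval x ∂μ := fun p => rfl
  have hΛpos : ∀ p : ℝ[X], p ≠ 0 → 0 < Λ (p ^ 2) := by
    intro p hp
    rw [hΛa]
    simp only [eval_pow]
    exact hpos p hp
  have hiff : ∀ P : ℕ → ℝ[X], IsMonicOP μ P ↔ ∀ n, Work.MP_e056c9_an.IsOP Λ n (P n) := by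
    intro P
    constructor
    · intro h n
      obtain ⟨h1, h2, h3⟩ := h n
      refine ⟨h1, h2, fun q hq => ?_⟩
      rw [hΛa]
      simp only [eval_mul]
      exact h3 q hq
    · intro h n
      refine ⟨(h n).monic, (h n).deg, fun q hq => ?_⟩
      have := (h n).orth q hq
      rw [hΛa] at this
      simpa only [eval_mul] using this
  have hdeg : f.natDegree = F.natDegree * F.natDegree := by
    have h1 := congrArg natDegree hFf
    rw [natDegree_comp, natDegree_map_eq_of_injective (algebraMap ℝ ℂ).injective] at h1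
    exact h1.symm
  have hmod : ∀ (k n n' : ℕ), 1 ≤ n → 1 ≤ n' → n ≡ n' [MOD F.natDegree ^ (2 * k)] →
      n - 1 ≡ n' - 1 [MOD f.natDegree ^ k] := by
    intro k n n' hn hn' h
    have e : f.natDegree ^ k = F.natDegree ^ (2 * k) := by
      rw [hdeg, pow_mul, pow_two]
    rw [e]
    have h2 : (n - 1) + 1 ≡ (n' - 1) + 1 [MOD F.natDegree ^ (2 * k)] := by
      rwa [Nat.sub_add_cancel hn, Nat.sub_add_cancel hn']
    exact Nat.ModEq.add_right_cancel' 1 h2
  constructor
  · -- existence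
    choose P hP using fun n => Work.MP_e056c9_an.exists_op (Λ := Λ) (n := n)
      (fun q hq _ => hΛpos q hq)
    obtain ⟨t1, t2⟩ := three_term hΛpos hP
    have ha : ∀ n, 0 < Work.MP_e056c9_an.aJ Λ P n := fun n =>
      div_pos (sq_pos' hΛpos hP _) (sq_pos' hΛpos hP _)
    refine ⟨fun n => Real.sqrt (Work.MP_e056c9_an.aJ Λ P (n - 1)),
      fun n => Work.MP_e056c9_an.bJ Λ P (n - 1), P, (hiff P).2 hP, ?_, t1, ?_⟩
    · intro n _
      exact Real.sqrt_pos.2 (ha _)
    · intro n hn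
      obtain ⟨m, rfl⟩ : ∃ m, n = m + 1 := ⟨n - 1, by omega⟩
      rw [Real.sq_sqrt (ha _).le]
      exact t2 m
  · rintro a b ⟨P, hP, hapos, h1, hrec⟩
    have hP' := (hiff P).1 hP
    obtain ⟨hb, ha⟩ := coeff_eq hΛpos hP' h1 hrec
    have hbL : IsLimitPeriodic F.natDegree b := by
      intro ε hε
      obtain ⟨k, hk⟩ := Work.MP_e056c9_an.bJ_per hC hP'
        (fun ε hε z hz hzα hzβ => hU ε hε z hz hzα hzβ) hε
      refine ⟨2 * k, fun n n' hn hn' hnn => ?_⟩
      have h2 := hk _ _ (hmod k n n' hn hn' hnn)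
      rw [← hb, ← hb, Nat.sub_add_cancel hn, Nat.sub_add_cancel hn'] at h2
      exact h2
    have haL : IsLimitPeriodic F.natDegree a := by
      intro ε hε
      obtain ⟨k, hk⟩ := Work.MP_e056c9_an.aJ_per hC hP'
        (fun ε hε z hz hzα hzβ => hU ε hε z hz hzα hzβ) (η := ε ^ 2) (by positivity)
      refine ⟨2 * k, fun n n' hn hn' hnn => ?_⟩
      have h2 := hk _ _ (hmod k n n' hn hn' hnn)
      rw [← ha, ← ha, Nat.sub_add_cancel hn, Nat.sub_add_cancel hn'] at h2
      have p1 := hapos n hn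
      have p2 := hapos n' hn'
      refine abs_le_of_sq_le_sq ?_ hε.le
      have h3 : (a n - a n') ^ 2 ≤ |a n ^ 2 - a n' ^ 2| := by
        have e : a n ^ 2 - a n' ^ 2 = (a n - a n') * (a n + a n') := by ring
        rw [e, abs_mul, abs_of_pos (by linarith : 0 < a n + a n'), ← sq_abs, pow_two]
        refine mul_le_mul_of_nonneg_left ?_ (abs_nonneg _)
        rw [abs_le]
        constructor <;> linarith
      linarith
    exact ⟨⟨almostPeriodic_of hd haL, almostPeriodic_of hd hbL⟩, haL, hbL⟩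

end Pool.Agent.Results.MP_e056c9_an.RealCantorJulia
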